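import Pool.Agent.Helper64.GQ.Defs
import Pool.Agent.Helper77.GS.Cl
import Pool.Agent.Helper77.GS.Red

/-!
# GQ, block Q2: the determinant and the relation of the minors
-/

set_option autoImplicit false

namespace Pool.Agent.GQ

open Pool.Agent.GS MvPolynomial

universe u

variable {F Ω : Type u} [Field F] [Field Ω] [Algebra F Ω] {n : ℕ}

/-- a family of `n` elements of rank `n` is algebraically independent -/
theorem algInd_of_rk (v : Fin n → Ω) (h : (n : ℕ∞) ≤ rk F (Set.range v)) : AlgebraicIndependent F v := by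
  classical
  obtain ⟨t, ht, hti, htc⟩ := exists_basis (k := F) (Set.range v)
  have h1 : (Set.range v).encard ≤ n := by
    rw [← Set.image_univ]
    refine (Set.encard_image_le v _).trans ?_
    simp
  have hfin : (Set.range v).Finite := Set.finite_range v
  have h2 : t = Set.range v := by
    refine (hfin.subset ht).eq_of_subset_of_encard_le ht ?_
    rw [htc]
    exact h1.trans h
  have h3 : (Set.range v).encard = n := by
    refine le_antisymm h1 ?_
    rw [← h2, htc]
    exact h
  have hinj : Function.Injective v := by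
    have h4 : (Finset.univ.image v).card = (Finset.univ : Finset (Fin n)).card := by
      have h5 : ((Finset.univ.image v : Finset Ω) : Set Ω) = Set.range v := by simp
      have h6 := h3
      rw [← h5, Set.encard_coe_eq_coe_finsetCard] at h6
      simpa using h6
    have h7 := Finset.card_image_iff.mp h4
    intro a b hab
    exact h7 (by simp) (by simp) hab
  subst h2
  exact (algebraicIndependent_subtype_range hinj).mp hti

/-- a homogeneous polynomial which vanishes at a generic point is zero -/
theorem zero_of_generic [Infinite F] (P : MvPolynomial (Fin (n + 1)) F) {d : ℕ} (hP : P.IsHomogeneous d)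
    (y : Fin (n + 1) → Ω) (hy : y ≠ 0) (hgen : (n : ℕ∞) ≤ rk F (Rat y)) (h : aeval y P = 0) : P = 0 := by
  classical
  obtain ⟨b, hb⟩ : ∃ b, y b ≠ 0 := by
    by_contra hcon
    push Not at hcon
    exact hy (funext hcon)
  set v : Fin n → Ω := fun i => y (b.succAbove i) / y b with hv
  have hvr : (n : ℕ∞) ≤ rk F (Set.range v) := by
    refine hgen.trans (rk_le_of_subset ?_)
    rintro _ ⟨a, c, rfl⟩
    have h1 : ∀ a, y a / y b ∈ cl F (Set.range v) := by
      intro a
      rcases eq_or_ne a b with rfl | hab
      · rw [div_self hb]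
        exact cl_one _
      · obtain ⟨i, rfl⟩ := Fin.exists_succAbove_eq hab
        exact subset_cl _ ⟨i, rfl⟩
    have h2 : y a / y c = (y a / y b) / (y c / y b) := by
      rcases eq_or_ne (y c) 0 with hc | hc
      · rw [hc, div_zero, zero_div, div_zero]
      · field_simp
    rw [h2]
    exact cl_div (h1 a) (h1 c)
  have hvi := algInd_of_rk v hvr
  set g : Fin (n + 1) → MvPolynomial (Fin n) F := b.insertNth (1 : MvPolynomial (Fin n) F) X with hg
  have hgv : ∀ {K : Type u} [Field K] [Algebra F K] (w : Fin n → K) (a : Fin (n + 1)),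
      aeval w (g a) = b.insertNth (α := fun _ => K) (1 : K) w a := by
    intro K _ _ w a
    rcases eq_or_ne a b with rfl | hab
    · rw [hg, Fin.insertNth_apply_same, Fin.insertNth_apply_same, map_one]
    · obtain ⟨i, rfl⟩ := Fin.exists_succAbove_eq hab
      rw [hg, Fin.insertNth_apply_succAbove, Fin.insertNth_apply_succAbove, aeval_X]
  have hins : ∀ {K : Type u} [Field K] (Y : Fin (n + 1) → K), Y b ≠ 0 →
      (b.insertNth (α := fun _ => K) (1 : K) fun i => Y (b.succAbove i) / Y b) = fun a => (Y b)⁻¹ * Y a := by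
    intro K _ Y hY
    funext a
    rcases eq_or_ne a b with rfl | hab
    · rw [Fin.insertNth_apply_same, inv_mul_cancel₀ hY]
    · obtain ⟨i, rfl⟩ := Fin.exists_succAbove_eq hab
      rw [Fin.insertNth_apply_succAbove, div_eq_inv_mul]
  have hQ : ∀ {K : Type u} [Field K] [Algebra F K] (Y : Fin (n + 1) → K), Y b ≠ 0 →
      aeval (fun i => Y (b.succAbove i) / Y b) (aeval g P) = (Y b)⁻¹ ^ d * aeval Y P := by
    intro K _ _ Y hY
    rw [← aeval_smul_homog P hP Y (Y b)⁻¹, ← hins Y hY]
    have h3 : (fun a => aeval (fun i => Y (b.succAbove i) / Y b) (g a)) =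
        b.insertNth (α := fun _ => K) (1 : K) fun i => Y (b.succAbove i) / Y b := by
      funext a
      exact hgv _ a
    rw [← h3]
    exact comp_aeval_apply _ _ P
  have h4 : aeval g P = 0 := by
    refine (map_eq_zero_iff _ hvi).mp ?_
    rw [hv, hQ y hb, h, mul_zero]
  have h5 : P * X b = 0 := by
    refine MvPolynomial.funext fun Y => ?_
    rw [map_mul, eval_X, map_zero]
    by_cases hY : Y b = 0
    · rw [hY, mul_zero]
    · have h6 := hQ Y hY
      rw [h4, map_zero] at h6
      have h7 : (Y b)⁻¹ ^ d ≠ 0 := pow_ne_zero _ (inv_ne_zero hY)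
      have h8 : aeval Y P = 0 := by
        rcases mul_eq_zero.mp h6.symm with h9 | h9
        · exact absurd h9 h7
        · exact h9
      have h9 : eval Y P = 0 := by
        rw [← h8]
        rfl
      rw [h9, zero_mul]
  rcases mul_eq_zero.mp h5 with h6 | h6
  · exact h6
  · exact absurd h6 (X_ne_zero b)


/-- the matrix `M(Y)` -/
def MY {R : Type*} [CommRing R] (E E' : Matrix (Fin (n + 1)) (Fin (n + 1)) R) (κ : Fin (n + 1) → R)
    (Y : Fin (n + 1) → R) : Matrix (Fin (n + 1)) (Fin (n + 1)) R :=
  Matrix.of fun i j => (∑ a, E i a * Y a) * E i j - κ i * (∑ a, E' i a * Y a) * E' i j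

theorem MY_map {R R' : Type*} [CommRing R] [CommRing R'] (f : R →+* R')
    (E E' : Matrix (Fin (n + 1)) (Fin (n + 1)) R) (κ Y : Fin (n + 1) → R) :
    f (MY E E' κ Y).det = (MY (fun i j => f (E i j)) (fun i j => f (E' i j)) (fun i => f (κ i))
      fun a => f (Y a)).det := by
  rw [RingHom.map_det]
  congr 1
  ext i j
  simp [MY, map_sub, map_mul, map_sum]

theorem lin_eq (g : Fin (n + 1) → F) (y : Fin (n + 1) → Ω) : lin g y = ∑ a, algebraMap F Ω (g a) * y a := rfl

theorem det_Y_zero [Infinite F] (E E' : Matrix (Fin (n + 1)) (Fin (n + 1)) F) (κ : Fin (n + 1) → F)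
    (y z : Fin (n + 1) → Ω) (hy : y ≠ 0) (hz : z ≠ 0) (hgen : (n : ℕ∞) ≤ rk F (Rat y))
    (h : ∀ i, lin (E i) y * lin (E i) z = algebraMap F Ω (κ i) * (lin (E' i) y * lin (E' i) z))
    (Y : Fin (n + 1) → F) : (MY E E' κ Y).det = 0 := by
  classical
  set P : MvPolynomial (Fin (n + 1)) F := (MY (fun i j => C (E i j)) (fun i j => C (E' i j))
    (fun i => C (κ i)) X).det with hPdef
  have hP : P.IsHomogeneous (n + 1) := by
    rw [hPdef, Matrix.det_apply]
    refine IsHomogeneous.sum _ _ _ fun σ _ => ?_
    have h1 : (∏ i, MY (fun i j => (C (E i j) : MvPolynomial (Fin (n + 1)) F)) (fun i j => C (E' i j))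
        (fun i => C (κ i)) X (σ i) i).IsHomogeneous (∑ _i : Fin (n + 1), 1) := by
      refine IsHomogeneous.prod _ _ _ fun i _ => ?_
      have hl : ∀ g : Fin (n + 1) → F, (∑ a, C (g a) * X a : MvPolynomial (Fin (n + 1)) F).IsHomogeneous 1 :=
        fun g => IsHomogeneous.sum _ _ _ fun a _ => isHomogeneous_C_mul_X _ _
      simp only [MY, Matrix.of_apply]
      refine IsHomogeneous.sub ?_ ?_
      · rw [mul_comm]
        exact (hl _).C_mul _
      · have h2 : (C (κ (σ i)) * (∑ a, C (E' (σ i) a) * X a) * C (E' (σ i) i) : MvPolynomial (Fin (n + 1)) F) =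
          C (κ (σ i) * E' (σ i) i) * ∑ a, C (E' (σ i) a) * X a := by
          rw [C_mul]; ring
        rw [h2]
        exact (hl _).C_mul _
    have h2 : ∑ _i : Fin (n + 1), 1 = n + 1 := by simp
    rw [h2] at h1
    rcases Int.units_eq_one_or (Equiv.Perm.sign σ) with h3 | h3
    · rw [h3, one_smul]; exact h1
    · rw [h3, Units.neg_smul, one_smul]; exact h1.neg
  have hPy : aeval y P = 0 := by
    have h1 : aeval y P = (MY (fun i j => algebraMap F Ω (E i j)) (fun i j => algebraMap F Ω (E' i j))
        (fun i => algebraMap F Ω (κ i)) y).det := by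
      have h2 := MY_map ((aeval y : MvPolynomial (Fin (n + 1)) F →ₐ[F] Ω) : MvPolynomial (Fin (n + 1)) F →+* Ω)
        (fun i j => C (E i j)) (fun i j => C (E' i j)) (fun i => C (κ i)) X
      simp only [RingHom.coe_coe, aeval_X, algHom_C] at h2
      exact h2
    rw [h1]
    refine Matrix.exists_mulVec_eq_zero_iff.mp ⟨z, hz, ?_⟩
    funext i
    have h2 := h i
    rw [lin_eq, lin_eq, lin_eq, lin_eq] at h2
    simp only [Matrix.mulVec, dotProduct, MY, Matrix.of_apply, Pi.zero_apply]
    have h3 : ∀ j, ((∑ a, algebraMap F Ω (E i a) * y a) * algebraMap F Ω (E i j) -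
        algebraMap F Ω (κ i) * (∑ a, algebraMap F Ω (E' i a) * y a) * algebraMap F Ω (E' i j)) * z j =
        (∑ a, algebraMap F Ω (E i a) * y a) * (algebraMap F Ω (E i j) * z j) -
        algebraMap F Ω (κ i) * ((∑ a, algebraMap F Ω (E' i a) * y a) * (algebraMap F Ω (E' i j) * z j)) := by
      intro j; ring
    rw [Finset.sum_congr rfl fun j _ => h3 j, Finset.sum_sub_distrib, ← Finset.mul_sum, ← Finset.mul_sum,
      ← Finset.mul_sum, h2, sub_self]
  have hP0 := zero_of_generic P hP y hy hgen hPy
  have h1 := MY_map (eval Y) (fun i j => C (E i j)) (fun i j => C (E' i j)) (fun i => C (κ i)) X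
  simp only [eval_X, eval_C] at h1
  rw [← hPdef, hP0, map_zero] at h1
  exact h1.symm

/-- the value at the vertex -/
theorem sum_adjugate {m : ℕ} (A : Matrix (Fin m) (Fin m) F) (j : Fin m) (g : Fin m → F) :
    ∑ a, g a * A.adjugate a j = (A.updateRow j g).det := by
  rw [← Matrix.cramer_transpose_apply, Matrix.cramer_eq_adjugate_mulVec]
  simp only [Matrix.mulVec, dotProduct]
  refine Finset.sum_congr rfl fun a _ => ?_
  rw [← Matrix.adjugate_transpose, Matrix.transpose_apply, mul_comm]


/-- the product of the `c i`, `i ≠ j`, comes out -/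
theorem det_rows {m : ℕ} (B : Matrix (Fin m) (Fin m) F) (c : Fin m → F) (j : Fin m) (g : Fin m → F) :
    ((Matrix.of fun i => c i • B i).updateRow j g).det = (∏ i ∈ Finset.univ.erase j, c i) * (B.updateRow j g).det := by
  classical
  have h1 : (Matrix.of fun i => c i • B i).updateRow j g =
      Matrix.diagonal (Function.update c j 1) * B.updateRow j g := by
    ext a b
    rw [Matrix.diagonal_mul]
    rcases eq_or_ne a j with rfl | ha
    · simp
    · rw [Matrix.updateRow_ne ha, Matrix.updateRow_ne ha, Function.update_of_ne ha]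
      simp
  rw [h1, Matrix.det_mul, Matrix.det_diagonal]
  congr 1
  rw [← Finset.mul_prod_erase _ _ (Finset.mem_univ j), Function.update_self, one_mul]
  exact Finset.prod_congr rfl fun i hi => Function.update_of_ne (Finset.ne_of_mem_erase hi) _ _

theorem minors [Infinite F] (E E' : Matrix (Fin (n + 1)) (Fin (n + 1)) F) (hE : GP2 E E')
    (κ : Fin (n + 1) → F) (hκ : ∀ i, κ i ≠ 0)
    (y z : Fin (n + 1) → Ω) (hy : y ≠ 0) (hz : z ≠ 0) (hgen : (n : ℕ∞) ≤ rk F (Rat y))
    (h : ∀ i, lin (E i) y * lin (E i) z = algebraMap F Ω (κ i) * (lin (E' i) y * lin (E' i) z)) :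
    ∀ j S, j ∉ S → dd E E' S * dd E E' (Sᶜ.erase j) = κ j * (dd E E' (insert j S) * dd E E' Sᶜ) := by
  classical
  intro j S hj
  set A : Matrix (Fin (n + 1)) (Fin (n + 1)) F := mix E E' S with hA
  set Y : Fin (n + 1) → F := fun a => A.adjugate a j with hY
  have hdet := det_Y_zero E E' κ y z hy hz hgen h Y
  have hAj : A j = E j := by
    funext a; simp [hA, mix, hj]
  have hAin : ∀ l, l ∈ S → A l = E' l := by
    intro l hl; funext a; simp [hA, mix, hl]
  have hAout : ∀ l, l ∉ S → A l = E l := by
    intro l hl; funext a; simp [hA, mix, hl]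
  have hval : ∀ g : Fin (n + 1) → F, ∑ a, g a * Y a = (A.updateRow j g).det := sum_adjugate A j
  have hsame : ∀ l, l ≠ j → (A.updateRow j (A l)).det = 0 := by
    intro l hl
    refine Matrix.det_zero_of_row_eq hl ?_
    rw [Matrix.updateRow_self]
    funext a
    rw [Matrix.updateRow_ne hl]
  -- the nonzero values
  have hne : ∀ l, l ≠ j → (A.updateRow j (if l ∈ S then E l else E' l)).det ≠ 0 := by
    intro l hl
    set f : Fin (n + 1) → Fin (n + 1) ⊕ Fin (n + 1) := fun i =>
      if i = j then (if l ∈ S then Sum.inl l else Sum.inr l) else (if i ∈ S then Sum.inr i else Sum.inl i) with hf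
    have hinj : Function.Injective f := by
      intro a b hab
      simp only [hf] at hab
      by_cases ha : a = j <;> by_cases hb : b = j
      · rw [ha, hb]
      · exfalso
        rw [if_pos ha, if_neg hb] at hab
        by_cases h1 : l ∈ S <;> by_cases h2 : b ∈ S <;> simp [h1, h2] at hab
        · exact h2 (hab ▸ h1)
        · exact h1 (hab ▸ h2)
      · exfalso
        rw [if_neg ha, if_pos hb] at hab
        by_cases h1 : l ∈ S <;> by_cases h2 : a ∈ S <;> simp [h1, h2] at hab
        · exact h2 (hab ▸ h1)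
        · exact h1 (hab ▸ h2)
      · rw [if_neg ha, if_neg hb] at hab
        by_cases h1 : a ∈ S <;> by_cases h2 : b ∈ S <;> simp [h1, h2] at hab
        · exact hab
        · exact hab
    have h1 := hE f hinj
    have h2 : (Matrix.of fun i => Sum.elim E E' (f i)) = A.updateRow j (if l ∈ S then E l else E' l) := by
      ext a b
      rcases eq_or_ne a j with rfl | ha
      · rw [Matrix.updateRow_self]
        by_cases h1 : l ∈ S <;> simp [hf, h1]
      · rw [Matrix.updateRow_ne ha]
        by_cases h1 : a ∈ S <;> simp [hf, ha, h1, hA, mix]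
    rwa [h2] at h1
  -- rows of M(Y)
  set B : Matrix (Fin (n + 1)) (Fin (n + 1)) F := mix E E' Sᶜ with hB
  set c : Fin (n + 1) → F := fun l => if l ∈ S then (A.updateRow j (E l)).det
    else - κ l * (A.updateRow j (E' l)).det with hc
  have hc0 : ∀ l ∈ Finset.univ.erase j, c l ≠ 0 := by
    intro l hl
    have hlj := Finset.ne_of_mem_erase hl
    have h1 := hne l hlj
    simp only [hc]
    by_cases h2 : l ∈ S
    · rw [if_pos h2]; rwa [if_pos h2] at h1
    · rw [if_neg h2]; rw [if_neg h2] at h1
      exact mul_ne_zero (neg_ne_zero.mpr (hκ l)) h1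
  set rowj : Fin (n + 1) → F := fun b => dd E E' S * E j b - κ j * dd E E' (insert j S) * E' j b with hrowj
  have hins : (A.updateRow j (E' j)).det = dd E E' (insert j S) := by
    unfold dd
    congr 1
    ext a b
    rcases eq_or_ne a j with rfl | ha
    · rw [Matrix.updateRow_self]; simp [mix]
    · rw [Matrix.updateRow_ne ha]
      by_cases h1 : a ∈ S <;> simp [hA, mix, ha, h1]
  have hself : (A.updateRow j (E j)).det = dd E E' S := by
    rw [← hAj, Matrix.updateRow_eq_self]
    rfl
  have hM : MY E E' κ Y = (Matrix.of fun i => c i • B i).updateRow j rowj := by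
    ext l b
    rcases eq_or_ne l j with rfl | hl
    · rw [Matrix.updateRow_self]
      simp only [MY, Matrix.of_apply, hval, hself, hins, hrowj]
    · rw [Matrix.updateRow_ne hl]
      simp only [MY, Matrix.of_apply, hval, Pi.smul_apply, smul_eq_mul]
      by_cases h1 : l ∈ S
      · have h2 := hsame l hl
        rw [hAin l h1] at h2
        rw [h2]
        simp [hc, h1, hB, mix]
      · have h2 := hsame l hl
        rw [hAout l h1] at h2
        rw [h2]
        simp [hc, h1, hB, mix]
  rw [hM, det_rows] at hdet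
  have hprod : ∏ i ∈ Finset.univ.erase j, c i ≠ 0 := Finset.prod_ne_zero_iff.mpr hc0
  have h0 := (mul_eq_zero.mp hdet).resolve_left hprod
  have h1 : rowj = dd E E' S • E j + (- (κ j * dd E E' (insert j S))) • E' j := by
    funext b
    simp only [hrowj, Pi.add_apply, Pi.smul_apply, smul_eq_mul]
    ring
  rw [h1, Matrix.det_updateRow_add, Matrix.det_updateRow_smul, Matrix.det_updateRow_smul] at h0
  have h2 : (B.updateRow j (E j)).det = dd E E' (Sᶜ.erase j) := by
    unfold dd
    congr 1
    ext a b
    rcases eq_or_ne a j with rfl | ha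
    · rw [Matrix.updateRow_self]; simp [mix]
    · rw [Matrix.updateRow_ne ha]
      by_cases h1 : a ∈ S <;> simp [hB, mix, ha, h1]
  have h3 : (B.updateRow j (E' j)).det = dd E E' Sᶜ := by
    unfold dd
    congr 1
    ext a b
    rcases eq_or_ne a j with rfl | ha
    · rw [Matrix.updateRow_self]; simp [mix, hj]
    · rw [Matrix.updateRow_ne ha]
  rw [h2, h3] at h0
  linear_combination h0

end Pool.Agent.GQ
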